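import Pool.Agent.P.MP_d6faff_lc.Dim.Fin

set_option autoImplicit false

namespace Pool.Agent.Results.MP_d6faff_lc.EveryDimension

/-- A computable graph: a simple graph on a computable set of naturals with computable edge
relation. -/
structure CGraph where
  dom : Set ℕ
  G : SimpleGraph dom
  dom_comp : ComputablePred fun n => n ∈ dom
  adj_comp : ComputablePred fun p : ℕ × ℕ =>
    ∃ (h1 : p.1 ∈ dom) (h2 : p.2 ∈ dom), G.Adj ⟨p.1, h1⟩ ⟨p.2, h2⟩

/-- Some isomorphism is computed, on the whole domain, by a possibly non-total recursive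
function. -/
def CIso (A B : CGraph) : Prop :=
  ∃ (f : A.G ≃g B.G) (φ : ℕ →. ℕ), Partrec φ ∧ ∀ x : A.dom, (f x : ℕ) ∈ φ x

/-- The computable dimension: the number of computable copies up to computable isomorphism. -/
noncomputable def cdim (A : CGraph) : ℕ∞ :=
  ENat.card (Quot fun B C : {B : CGraph // Nonempty (B.G ≃g A.G)} => CIso B.1 C.1)

open Pool.Agent.P.MP_d6faff_lc in
/-- Every finite number from two on is the computable dimension of a connected computable graph of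
bounded degree. -/
theorem result (n : ℕ) (hn : 2 ≤ n) : ∃ A : CGraph, A.G.Connected ∧
    (∀ v, (A.G.neighborSet v).encard ≤ 7 * n) ∧ cdim A = n := by
  obtain ⟨k, rfl⟩ : ∃ k, n = k + 1 := ⟨n - 1, by omega⟩
  have hk : 1 ≤ k := by omega
  have hu : ComputablePred fun m : ℕ => m ∈ (Set.univ : Set ℕ) :=
    ComputablePred.computable_iff.2 ⟨fun _ => true, Computable.const _, by simp⟩
  obtain ⟨G, ψ, h1, h2, -⟩ := exists_PD (k := k) (fun _ => false) hk
  refine ⟨⟨_, G, hu, h1⟩, h2.conn, fun v => (h2.nbr hk v).trans ?_, ?_⟩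
  · exact_mod_cast (by omega : 7 * k ≤ 7 * (k + 1))
  have ex : ∀ B : {B : CGraph // Nonempty (B.G ≃g G)}, ∃ (ε : Fin k → Bool) (χ : ℕ → Y k),
      PD B.1.dom (rel B.1.G) ε χ ∧ Gr B.1.dom χ := fun ⟨B, ⟨f⟩⟩ => by
    obtain ⟨χ, h3, -⟩ := h2.pull f
    exact h3.normal B.adj_comp
  choose ε χ p g using ex
  have wd : ∀ B C, CIso B.1 C.1 →
      (⟨cnt (ε B), cnt_le _⟩ : Fin (k + 1)) = ⟨cnt (ε C), cnt_le _⟩ := by
    rintro B C ⟨f, φ, h3, h4⟩
    obtain ⟨χ', h5, h6⟩ := (p C).pull f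
    exact Fin.ext ((p B).cnt_eq h5 hk (g B) ((g C).pull B.1.dom_comp h3 h4 h6))
  have bij : Function.Bijective (Quot.lift _ wd) := by
    constructor
    · rintro ⟨B⟩ ⟨C⟩ H
      obtain ⟨χ', h3, h4⟩ := (p B).perm (g B) (congrArg Fin.val H)
      exact Quot.sound (h3.ciso (p C) h4 (g C))
    · rintro ⟨j, hj⟩
      obtain ⟨e, rfl⟩ := exists_cnt hj
      obtain ⟨G', ψ', h3, h4, h5⟩ := exists_PD e hk
      obtain ⟨ψ'', h6⟩ := h4.untwist
      obtain ⟨f, -⟩ := h6.iso h2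
      exact ⟨Quot.mk _ ⟨⟨_, G', hu, h3⟩, ⟨f⟩⟩, Fin.ext ((p _).cnt_eq h4 hk (g _) h5)⟩
  exact (ENat.card_congr (Equiv.ofBijective _ bij)).trans (by simp)

end Pool.Agent.Results.MP_d6faff_lc.EveryDimension
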